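import Mathlib
import Pool.Agent.Run7.h424.XK.Cmp
import Pool.Agent.Y667.BKP.Main
import Pool.Agent.R390.NoInv

/-!
# The points and the Bloch–Kato Selmer group over a field generated by square roots

Let `F = ℚ(r 0, ..., r (n-1))` with `r i ^ 2 = d i`, `E : y² = x³ + a₂ x² + a₄ x + a₆` over `ℚ`. If for each set `T` of
indices the twist of `E` by `∏_{i ∈ T} d i` has finitely many rational points and no 2-primary part
of its Tate–Shafarevich group, then `E(F)` is finite, `Ш(E/F)[2^∞]` is killed by `2 ^ n`, and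
`H¹_f(F, V_2 E) = 0`, `H⁰(F, V_2 E) = 0`.
-/

set_option autoImplicit false
set_option linter.unusedSectionVars false

open scoped Classical

namespace Pool.Agent.Run7.h424.BK

open WeierstrassCurve NumberField Polynomial
open Pool.Agent.TH841.NF

/-- a group is finite if its 2-torsion and its multiples of `2 ^ n` form finite sets -/
theorem fin_of_range (n : ℕ) : ∀ (A : Type) [AddCommGroup A], {x : A | 2 • x = 0}.Finite →
    (Set.range fun x : A => (2 ^ n : ℕ) • x).Finite → Finite A := by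
  induction n with
  | zero =>
    intro A _ _ h
    have : (Set.range fun x : A => (2 ^ 0 : ℕ) • x) = Set.univ := by
      ext x
      simp
    rw [this] at h
    exact Set.finite_univ_iff.1 h
  | succ n ih =>
    intro A _ h2 h
    let f : A →+ A := nsmulAddMonoidHom 2
    have hk : Finite f.ker := by
      have : (f.ker : Set A) = {x : A | 2 • x = 0} := rfl
      rw [← this] at h2
      exact h2.to_subtype
    have hr : Finite f.range := by
      refine ih f.range ?_ ?_
      · refine Set.Finite.of_finite_image (f := ((↑) : f.range → A)) (h2.subset ?_)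
          Subtype.val_injective.injOn
        rintro _ ⟨x, hx, rfl⟩
        exact congrArg Subtype.val hx
      · refine Set.Finite.of_finite_image (f := ((↑) : f.range → A)) (h.subset ?_)
          Subtype.val_injective.injOn
        rintro _ ⟨_, ⟨⟨_, y, rfl⟩, rfl⟩, rfl⟩
        refine ⟨y, ?_⟩
        show (2 ^ (n + 1) : ℕ) • y = (2 ^ n : ℕ) • (2 • y)
        rw [smul_smul, pow_succ]
    exact (AddMonoidHom.finite_iff_finite_ker_range f).2 ⟨hk, hr⟩

section

variable {F : Type} [Field F] [NumberField F] {n : ℕ} {r : Fin n → F} {d : Fin n → ℚ}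
  (hr : ∀ i, r i ^ 2 = algebraMap ℚ F (d i)) (hd : ∀ i, d i ≠ 0)
  (hgen : IntermediateField.adjoin ℚ (Set.range r) = ⊤)

include hr hgen in
theorem gal : IsGalois ℚ F := by
  have h1 : (∏ i, (X ^ 2 - C (d i)) : ℚ[X]).map (algebraMap ℚ F) =
      ∏ i, ((X - C (r i)) * (X + C (r i))) := by
    rw [Polynomial.map_prod]
    refine Finset.prod_congr rfl fun i _ => ?_
    rw [Polynomial.map_sub, Polynomial.map_pow, Polynomial.map_X, Polynomial.map_C, ← hr i, C_pow]
    ring
  have : IsSplittingField ℚ F (∏ i, (X ^ 2 - C (d i)) : ℚ[X]) := by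
    refine ⟨?_, ?_⟩
    · rw [h1]
      refine Splits.prod fun i _ => ?_
      refine Splits.mul (Splits.X_sub_C _) ?_
      have : (X + C (r i) : F[X]) = X - C (-r i) := by rw [C_neg, sub_neg_eq_add]
      rw [this]
      exact Splits.X_sub_C _
    · have h2 : Algebra.adjoin ℚ (Set.range r) = ⊤ :=
        (IntermediateField.adjoin_eq_top_iff_of_isAlgebraic
          fun x _ => Algebra.IsAlgebraic.isAlgebraic x).1 hgen
      rw [eq_top_iff, ← h2]
      refine Algebra.adjoin_mono ?_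
      rintro _ ⟨i, rfl⟩
      rw [Polynomial.mem_rootSet]
      refine ⟨?_, ?_⟩
      · rw [Finset.prod_ne_zero_iff]
        exact fun i _ => X_pow_sub_C_ne_zero two_pos _
      · rw [Polynomial.aeval_def, ← Polynomial.eval_map, h1, Polynomial.eval_prod]
        refine Finset.prod_eq_zero (Finset.mem_univ i) ?_
        simp
  have : Normal ℚ F := Normal.of_isSplittingField (∏ i, (X ^ 2 - C (d i)) : ℚ[X])
  exact ⟨⟩

/-- the sign -/
noncomputable def sg (r : Fin n → F) (i : Fin n) (σ : F ≃ₐ[ℚ] F) : ℤ :=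
  if σ (r i) = r i then 1 else -1

include hr in
theorem sg_spec (i : Fin n) (σ : F ≃ₐ[ℚ] F) : σ (r i) = sg r i σ * r i := by
  have h1 : (σ (r i) - r i) * (σ (r i) + r i) = 0 := by
    have h2 : σ (r i) ^ 2 = r i ^ 2 := by
      rw [← map_pow, hr i, AlgEquiv.commutes]
    linear_combination h2
  unfold sg
  split_ifs with h
  · rw [Int.cast_one, one_mul, h]
  · rcases mul_eq_zero.1 h1 with h2 | h2
    · exact absurd (sub_eq_zero.1 h2) h
    · rw [eq_neg_of_add_eq_zero_left h2]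
      push_cast
      ring

theorem sg_cases (i : Fin n) (σ : F ≃ₐ[ℚ] F) : sg r i σ = 1 ∨ sg r i σ = -1 := by
  unfold sg
  split_ifs
  · exact Or.inl rfl
  · exact Or.inr rfl

include hr hd in
theorem r_ne (i : Fin n) : r i ≠ 0 := by
  intro h
  have h1 := hr i
  rw [h, zero_pow two_ne_zero] at h1
  exact hd i ((map_eq_zero (algebraMap ℚ F)).1 h1.symm)

include hr hd in
theorem sg_mul (i : Fin n) (σ τ : F ≃ₐ[ℚ] F) : sg r i (σ * τ) = sg r i σ * sg r i τ := by
  have h1 : (σ * τ) (r i) = ((sg r i σ * sg r i τ : ℤ) : F) * r i := by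
    rw [AlgEquiv.mul_apply, sg_spec hr i τ, map_mul, map_intCast, sg_spec hr i σ]
    push_cast
    ring
  rw [sg_spec hr i (σ * τ)] at h1
  exact_mod_cast mul_right_cancel₀ (r_ne hr hd i) h1

/-- the character -/
noncomputable def chi (r : Fin n → F) (T : Finset (Fin n)) (σ : F ≃ₐ[ℚ] F) : ℤ := ∏ i ∈ T, sg r i σ

include hr hd in
theorem chi_mul (T : Finset (Fin n)) (σ τ : F ≃ₐ[ℚ] F) : chi r T (σ * τ) = chi r T σ * chi r T τ := by
  unfold chi
  rw [← Finset.prod_mul_distrib]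
  exact Finset.prod_congr rfl fun i _ => sg_mul hr hd i σ τ

theorem chi_sq (T : Finset (Fin n)) (σ : F ≃ₐ[ℚ] F) : chi r T σ * chi r T σ = 1 := by
  unfold chi
  rw [← Finset.prod_mul_distrib]
  refine Finset.prod_eq_one fun i _ => ?_
  rcases sg_cases (r := r) i σ with h | h <;> rw [h] <;> norm_num

theorem chi_cases (T : Finset (Fin n)) (σ : F ≃ₐ[ℚ] F) : chi r T σ = 1 ∨ chi r T σ = -1 := by
  have h := chi_sq (r := r) T σ
  have h1 : (chi r T σ - 1) * (chi r T σ + 1) = 0 := by linear_combination h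
  rcases mul_eq_zero.1 h1 with h2 | h2
  · left; linarith
  · right; linarith

include hr in
theorem chi_spec (T : Finset (Fin n)) (σ : F ≃ₐ[ℚ] F) :
    σ (∏ i ∈ T, r i) = chi r T σ * ∏ i ∈ T, r i := by
  unfold chi
  rw [map_prod, Int.cast_prod, ← Finset.prod_mul_distrib]
  exact Finset.prod_congr rfl fun i _ => sg_spec hr i σ

include hr hgen in
theorem orth {σ : F ≃ₐ[ℚ] F} (hσ : σ ≠ 1) : ∑ T : Finset (Fin n), chi r T σ = 0 := by
  have h1 : ∑ T : Finset (Fin n), chi r T σ = ∏ i, (1 + sg r i σ) := by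
    rw [Finset.prod_one_add, Finset.powerset_univ]
    rfl
  rw [h1, Finset.prod_eq_zero_iff]
  by_contra hcon
  push Not at hcon
  apply hσ
  have h2 : ∀ i, σ (r i) = r i := by
    intro i
    have h3 := (sg_cases (r := r) i σ).resolve_right fun h => hcon i (Finset.mem_univ i) (by
      rw [h]; norm_num)
    rw [sg_spec hr i σ, h3, Int.cast_one, one_mul]
  have h3 : (σ : F →ₐ[ℚ] F) = AlgHom.id ℚ F := by
    have h4 : Algebra.adjoin ℚ (Set.range r) = ⊤ :=
      (IntermediateField.adjoin_eq_top_iff_of_isAlgebraic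
        fun x _ => Algebra.IsAlgebraic.isAlgebraic x).1 hgen
    refine AlgHom.ext_of_adjoin_eq_top h4 ?_
    rintro _ ⟨i, rfl⟩
    exact h2 i
  exact AlgEquiv.ext fun x => DFunLike.congr_fun h3 x

theorem one_chi (T : Finset (Fin n)) : chi r T (1 : F ≃ₐ[ℚ] F) = 1 := by
  unfold chi
  refine Finset.prod_eq_one fun i _ => ?_
  unfold sg
  simp

variable {E : WeierstrassCurve ℚ} {W : WeierstrassCurve F} (hW : Sc (algebraMap ℚ F) 1 E W)
  (E1 : E.a₁ = 0) (E3 : E.a₃ = 0)

include hW in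
theorem scg (σ : F ≃ₐ[ℚ] F) : Sc (σ : F →+* F) 1 W W := by
  have key : ∀ (q : ℚ) (m : ℕ), algebraMap ℚ F q * 1 ^ m =
      (σ : F →+* F) (algebraMap ℚ F q * 1 ^ m) * 1 ^ m := by
    intro q m
    rw [one_pow, mul_one, mul_one]
    exact (σ.commutes q).symm
  refine ⟨one_ne_zero, ?_, ?_, ?_, ?_, ?_⟩
  · have := key E.a₁ 1
    rw [pow_one] at this
    rw [hW.h1]
    exact this
  · rw [hW.h2]
    exact key E.a₂ 2
  · rw [hW.h3]
    exact key E.a₃ 3
  · rw [hW.h4]
    exact key E.a₄ 4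
  · rw [hW.h6]
    exact key E.a₆ 6

/-- the action of the Galois group -/
noncomputable def ga (σ : F ≃ₐ[ℚ] F) : W.toAffine.Point →+ W.toAffine.Point where
  toFun := tF (scg hW σ)
  map_zero' := rfl
  map_add' := tF_add (scg hW σ)

theorem ga_some (σ : F ≃ₐ[ℚ] F) {x y : F} (h : W.toAffine.Nonsingular x y) : ∃ h',
    ga hW σ (Affine.Point.some x y h) = Affine.Point.some (σ x) (σ y) h' := by
  have h1 := (ns_iff (scg hW σ) x y).2 h
  have e1 : (σ : F →+* F) x * 1 ^ 2 = σ x := by rw [one_pow, mul_one]; rfl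
  have e2 : (σ : F →+* F) y * 1 ^ 3 = σ y := by rw [one_pow, mul_one]; rfl
  rw [e1, e2] at h1
  refine ⟨h1, ?_⟩
  show Affine.Point.some ((σ : F →+* F) x * 1 ^ 2) ((σ : F →+* F) y * 1 ^ 3) _ = _
  exact (Affine.Point.some.injEq ..).mpr ⟨e1, e2⟩

theorem ga_mul (σ τ : F ≃ₐ[ℚ] F) (P : W.toAffine.Point) :
    ga hW (σ * τ) P = ga hW σ (ga hW τ P) := by
  rcases P with _ | ⟨x, y, h⟩
  · rfl
  · obtain ⟨h1, e1⟩ := ga_some hW (σ * τ) h
    obtain ⟨h2, e2⟩ := ga_some hW τ h
    obtain ⟨h3, e3⟩ := ga_some hW σ h2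
    rw [e1, e2, e3]
    rfl

theorem ga_one (P : W.toAffine.Point) : ga hW 1 P = P := by
  rcases P with _ | ⟨x, y, h⟩
  · rfl
  · obtain ⟨h1, e1⟩ := ga_some hW 1 h
    rw [e1]
    rfl

include hr hd hgen E1 E3 in
theorem part_fin (T : Finset (Fin n)) (hf : Finite (tw (∏ i ∈ T, d i) E).toAffine.Point) :
    {Q : W.toAffine.Point | ∀ τ, ga hW τ Q = chi r T τ • Q}.Finite := by
  have hG := gal hr hgen
  set ρ : F := ∏ i ∈ T, r i with hρd
  have hρ : ρ ^ 2 = algebraMap ℚ F (∏ i ∈ T, d i) := by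
    rw [hρd, ← Finset.prod_pow, map_prod]
    exact Finset.prod_congr rfl fun i _ => hr i
  have hρ0 : ρ ≠ 0 := Finset.prod_ne_zero_iff.2 fun i _ => r_ne hr hd i
  have W1 : W.a₁ = 0 := by rw [hW.h1, E1, map_zero, zero_mul]
  have W3 : W.a₃ = 0 := by rw [hW.h3, E3, map_zero, zero_mul]
  have S : Sc (algebraMap ℚ F) ρ⁻¹ (tw (∏ i ∈ T, d i) E) W := by
    refine ⟨inv_ne_zero hρ0, ?_, ?_, ?_, ?_, ?_⟩
    · rw [W1]
      show _ = algebraMap ℚ F 0 * _
      rw [map_zero, zero_mul]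
    · rw [hW.h2]
      show _ = algebraMap ℚ F ((∏ i ∈ T, d i) * E.a₂) * _
      rw [map_mul, ← hρ]
      field_simp
    · rw [W3]
      show _ = algebraMap ℚ F 0 * _
      rw [map_zero, zero_mul]
    · rw [hW.h4]
      show _ = algebraMap ℚ F ((∏ i ∈ T, d i) ^ 2 * E.a₄) * _
      rw [map_mul, map_pow, ← hρ]
      field_simp
    · rw [hW.h6]
      show _ = algebraMap ℚ F ((∏ i ∈ T, d i) ^ 3 * E.a₆) * _
      rw [map_mul, map_pow, ← hρ]
      field_simp
  refine (Set.finite_range (tF S)).subset ?_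
  intro Q hQ
  rcases Q with _ | ⟨x, y, h⟩
  · exact ⟨0, rfl⟩
  · have hfix : ∀ τ : F ≃ₐ[ℚ] F, τ x = x ∧ τ y = chi r T τ * y := by
      intro τ
      have h1 := hQ τ
      obtain ⟨h2, e2⟩ := ga_some hW τ h
      rw [e2] at h1
      rcases chi_cases (r := r) T τ with hc | hc
      · rw [hc, one_smul] at h1
        have h3 := (Affine.Point.some.injEq ..).mp h1
        rw [hc, Int.cast_one, one_mul]
        exact h3
      · rw [hc, neg_smul, one_smul, Affine.Point.neg_some] at h1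
        have h3 := (Affine.Point.some.injEq ..).mp h1
        rw [hc]
        refine ⟨h3.1, h3.2.trans ?_⟩
        rw [Affine.negY, W1, W3]
        push_cast
        ring
    have hx : x ∈ (⊥ : IntermediateField ℚ F) :=
      (IsGalois.mem_bot_iff_fixed x).2 fun τ => (hfix τ).1
    have hy : ρ * y ∈ (⊥ : IntermediateField ℚ F) := by
      refine (IsGalois.mem_bot_iff_fixed _).2 fun τ => ?_
      rw [map_mul, (hfix τ).2, hρd, chi_spec hr T τ]
      have h1 : ((chi r T τ * chi r T τ : ℤ) : F) = 1 := by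
        rw [chi_sq, Int.cast_one]
      push_cast at h1
      linear_combination (∏ i ∈ T, r i) * y * h1
    obtain ⟨x0, hx0⟩ := IntermediateField.mem_bot.1 hx
    obtain ⟨y0, hy0⟩ := IntermediateField.mem_bot.1 hy
    have e1 : algebraMap ℚ F ((∏ i ∈ T, d i) * x0) * ρ⁻¹ ^ 2 = x := by
      rw [map_mul, ← hρ, hx0]
      field_simp
    have e2 : algebraMap ℚ F ((∏ i ∈ T, d i) * y0) * ρ⁻¹ ^ 3 = y := by
      rw [map_mul, ← hρ, hy0]
      field_simp
    refine ⟨Affine.Point.some ((∏ i ∈ T, d i) * x0) ((∏ i ∈ T, d i) * y0)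
      ((ns_iff S _ _).1 (by rw [e1, e2]; exact h)), ?_⟩
    rw [tF_some]
    exact (Affine.Point.some.injEq ..).mpr ⟨e1, e2⟩

include hW E1 E3 in
theorem tors_fin : {P : W.toAffine.Point | 2 • P = 0}.Finite := by
  have W1 : W.a₁ = 0 := by rw [hW.h1, E1, map_zero, zero_mul]
  have W3 : W.a₃ = 0 := by rw [hW.h3, E3, map_zero, zero_mul]
  set c : Cubic F := ⟨1, W.a₂, W.a₄, W.a₆⟩ with hc
  have hc0 : c.toPoly ≠ 0 := Cubic.ne_zero_of_a_ne_zero one_ne_zero
  have h1 : ∀ x : F, {P : W.toAffine.Point | ∃ h, P = Affine.Point.some x 0 h}.Finite := by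
    intro x
    refine Set.Subsingleton.finite ?_
    rintro _ ⟨h, rfl⟩ _ ⟨h', rfl⟩
    rfl
  refine ((Set.finite_singleton (0 : W.toAffine.Point)).union
    (Set.Finite.biUnion (c.toPoly.roots.toFinset).finite_toSet fun x _ => h1 x)).subset ?_
  intro P hP
  rcases P with _ | ⟨x, y, h⟩
  · exact Or.inl rfl
  · right
    have h2 : (Affine.Point.some x y h : W.toAffine.Point) = -Affine.Point.some x y h :=
      eq_neg_of_add_eq_zero_left (by rw [← two_smul ℕ]; exact hP)
    rw [Affine.Point.neg_some] at h2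
    have h3 := ((Affine.Point.some.injEq ..).mp h2).2
    rw [Affine.negY, W1, W3] at h3
    have hy : y = 0 := by
      have : (2 : F) * y = 0 := by linear_combination h3
      exact (mul_eq_zero.1 this).resolve_left two_ne_zero
    subst hy
    have h4 := (Affine.equation_iff _ _).1 h.1
    rw [Set.mem_iUnion₂]
    refine ⟨x, ?_, h, rfl⟩
    rw [Finset.mem_coe, Multiset.mem_toFinset, Polynomial.mem_roots hc0, Polynomial.IsRoot,
      Cubic.toPoly]
    simp only [hc, Polynomial.eval_add, Polynomial.eval_mul, Polynomial.eval_pow,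
      Polynomial.eval_X, Polynomial.eval_C]
    rw [W1, W3] at h4
    linear_combination -h4

include hr hd hgen hW E1 E3 in
/-- **the points over `F`** -/
theorem fin_mq (hf : ∀ T : Finset (Fin n), Finite (tw (∏ i ∈ T, d i) E).toAffine.Point) :
    Finite W.toAffine.Point := by
  refine fin_of_range n _ (tors_fin hW E1 E3) ?_
  refine ((Set.Finite.pi' fun T => part_fin hr hd hgen hW E1 E3 T (hf T)).image
    (fun f => ∑ T, f T)).subset ?_
  rintro _ ⟨P, rfl⟩
  refine ⟨fun T => ∑ σ, chi r T σ • ga hW σ P, fun T τ => ?_, ?_⟩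
  · show ga hW τ (∑ σ, chi r T σ • ga hW σ P) = chi r T τ • ∑ σ, chi r T σ • ga hW σ P
    rw [map_sum, Finset.smul_sum]
    rw [← Equiv.sum_comp (Equiv.mulLeft τ) (fun σ => chi r T τ • (chi r T σ • ga hW σ P))]
    refine Finset.sum_congr rfl fun σ _ => ?_
    rw [map_zsmul, Equiv.coe_mulLeft, ga_mul, chi_mul hr hd, smul_smul, ← mul_assoc, chi_sq,
      one_mul]
  · show ∑ T, ∑ σ, chi r T σ • ga hW σ P = (2 ^ n : ℕ) • P
    rw [Finset.sum_comm]
    have h1 : ∀ σ : F ≃ₐ[ℚ] F, ∑ T : Finset (Fin n), chi r T σ • ga hW σ P =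
        (∑ T : Finset (Fin n), chi r T σ) • ga hW σ P := fun σ => (Finset.sum_smul).symm
    rw [Finset.sum_congr rfl (fun σ _ => h1 σ), Finset.sum_eq_single (1 : F ≃ₐ[ℚ] F)]
    · rw [ga_one, Finset.sum_congr rfl fun T _ => one_chi T, Finset.sum_const, Finset.card_univ,
        Fintype.card_finset, Fintype.card_fin, nsmul_eq_mul, mul_one, natCast_zsmul]
    · intro σ _ hσ
      rw [orth hr hgen hσ, zero_smul]
    · exact fun h => absurd (Finset.mem_univ _) h

include hr hd hgen hW E1 E3 in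
/-- **the Bloch–Kato Selmer group over `F`** -/
theorem bk_mq (hf : ∀ T : Finset (Fin n), Finite (tw (∏ i ∈ T, d i) E).toAffine.Point)
    (hs : ∀ (T : Finset (Fin n)) (k : ℕ)
      (x : Pool.Agent.TH841.NF.D.Sha (tw (∏ i ∈ T, d i) E)), 2 ^ k • x = 0 → x = 0) :
    Finite W.toAffine.Point ∧
    (∀ (k : ℕ) (x : Pool.Agent.TH841.NF.D.Sha W), 2 ^ k • x = 0 → (2 ^ n : ℕ) • x = 0) ∧
    (∀ x : Pool.Agent.Y667.BKP.H1f 2 W, x = 0) ∧
    ∀ x : Pool.Agent.Y667.BKP.PSeq W, Pool.Agent.Y667.BKP.IsV 2 W x →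
      (∀ (σ : Pool.Agent.TH841.SH.D.Gal F) (m : ℕ),
        Pool.Agent.TH841.SH.D.act W σ.toAlgHom (x m) = x m) → ∀ m, x m = 0 := by
  have h1 := fin_mq hr hd hgen hW E1 E3 hf
  have h2 := Pool.Agent.Run7.h424.XK.sha_mq hW E1 E3 hr hd hgen hs
  exact ⟨h1, h2, Pool.Agent.Y667.BKP.h1f_zero Nat.prime_two h1 n h2,
    Pool.Agent.R390.noinv h1⟩

end

end Pool.Agent.Run7.h424.BK
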